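import Pool.Agent.Lib.SmNH.Defs
import Pool.Agent.Lib.SmN.Cnt.Defs

/-!
# SmNH: shrinking the set of good places, local nondegeneracy at the bad places

`shrink S U`: the same system with `good := U`. If `U` is a cofinite subset of `S.good` then
everything (`Ok`, `HOk`, `CData.Ok`, ...) remains true. In HEIGHTS the set of good places must be
the set of the places of the prime system: `S.good = Set.range cd.pl`.

`BadOk S`: local duality at the bad places: a local class which is orthogonal to all the local
classes is zero.
-/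

set_option autoImplicit false

namespace Pool.Agent.SmNH

open Pool.Agent.SmN

section

variable {G V V1 Pl M : Type*} [Group G] [AddCommGroup V] [DistribMulAction G V]
  [AddCommGroup V1] [Module (ZMod 2) V1] [AddCommGroup M] [DistribMulAction G M]

/-- The same system with another set of good places. -/
def shrink (S : Sys G V V1 Pl) (U : Set Pl) : Sys G V V1 Pl := { S with good := U }

/-- Local nondegeneracy at the bad places. -/
structure BadOk (S : Sys G V V1 Pl) : Prop where
  nd : ∀ v, v ∉ S.good → ∀ x ∈ S.CP v, (∀ y ∈ S.CP v, S.sy v y x = 0) → ∃ z, x = S.cob v z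

variable {S : Sys G V V1 Pl} {U : Set Pl}

@[simp] theorem shrink_good (S : Sys G V V1 Pl) (U : Set Pl) : (shrink S U).good = U := rfl

theorem ok_shrink (h : S.Ok) (hU : U ⊆ S.good) (hf : Uᶜ.Finite) : (shrink S U).Ok where
  top_mem := h.top_mem
  inf_mem := h.inf_mem
  normal := h.normal
  phi_mem := h.phi_mem
  sg_mem := h.sg_mem
  gen := h.gen
  frob := h.frob
  fin1 := h.fin1
  e_alt := h.e_alt
  e_nondeg := h.e_nondeg
  e_inv := h.e_inv
  iota_inj := h.iota_inj
  iota_range := h.iota_range
  iota_ac := h.iota_ac
  half := h.half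
  tors := h.tors
  act_fin := h.act_fin
  unr := h.unr
  good_fin := hf
  good_triv := fun v hv => h.good_triv v (hU hv)
  hasse := h.hasse
  sy_comm := h.sy_comm
  sy_cob := h.sy_cob
  sy_unr := fun v hv => h.sy_unr v (hU hv)
  sy_split := fun v hv => h.sy_split v (hU hv)
  recip := h.recip
  corr := fun w hw hfix => by
    classical
    obtain ⟨c, hc, hc'⟩ := h.corr (fun v => if v ∈ U then w v else 0)
      (hw.subset fun v hv hw0 => hv (by rw [hw0, ite_self]))
      (fun v _ => by
        by_cases hvU : v ∈ U
        · simp only [if_pos hvU]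
          exact hfix v hvU
        · simp only [if_neg hvU, map_zero])
    refine ⟨c, hc, fun v hv => ?_⟩
    have hv' : v ∈ U := hv
    have := hc' v (hU hv')
    simp only [if_pos hv'] at this
    exact this
  dual := h.dual
  fin_inv := h.fin_inv
  isot := h.isot

theorem weil_shrink {e : ℕ → V → V → M} {j : ZMod 2 →+ M} (h : Weil S e j) :
    Weil (shrink S U) e j where
  add_left := h.add_left
  add_right := h.add_right
  alt := h.alt
  comp := h.comp
  equiv := h.equiv
  one := h.one
  fix := h.fix

theorem hok_shrink {H : HData V M Pl} (h : HOk S H) : HOk (shrink S U) H where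
  weil := weil_shrink h.weil
  inj := h.inj
  two := h.two
  tors := h.tors
  half := h.half
  act := h.act
  sgM := h.sgM
  nm_inj := h.nm_inj
  nm_j := h.nm_j
  prod := h.prod
  hasse := h.hasse

/-- Local nondegeneracy at all places gives it for all choices of the good places. -/
theorem badOk_of_all (h : ∀ v, ∀ x ∈ S.CP v, (∀ y ∈ S.CP v, S.sy v y x = 0) →
    ∃ z, x = S.cob v z) : BadOk (shrink S U) :=
  ⟨fun v _ => h v⟩

end

section cdata

variable {G V V1 Pl : Type} [Group G] [AddCommGroup V] [DistribMulAction G V]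
  [AddCommGroup V1] [Module (ZMod 2) V1] {S : Sys G V V1 Pl} {X : PSys} {U : Set Pl}

/-- The counting data for the shrunk system. -/
def cdShrink (cd : CData S X) (U : Set Pl) : CData (shrink S U) X where
  pl := cd.pl
  R := cd.R
  Kf := cd.Kf
  kf := cd.kf
  chi0 := cd.chi0
  ch := cd.ch
  be := cd.be
  h := cd.h
  hb := cd.hb
  kb := cd.kb

theorem cdOk_shrink {cd : CData S X} (h : cd.Ok) (hU : ∀ P, cd.pl P ∈ U) :
    (cdShrink cd U).Ok where
  pl_inj := h.pl_inj
  pl_good := hU
  fin_bad := h.fin_bad
  rep := h.rep
  kf_fin := h.kf_fin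
  kf_tf := h.kf_tf
  kf_conj := h.kf_conj
  kf_ac := h.kf_ac
  kf_four := h.kf_four
  kf_coc := h.kf_coc
  kf_hom := h.kf_hom
  kf_bad := h.kf_bad
  chi0_hom := h.chi0_hom
  chi0_unr := h.chi0_unr
  ch_hom := h.ch_hom
  ch_self := h.ch_self
  ch_unr := h.ch_unr
  ch_rec := h.ch_rec
  be_coc := h.be_coc
  be_add := h.be_add
  be_self := h.be_self
  be_unr := h.be_unr
  hb_inj := h.hb_inj
  hb_range := h.hb_range
  kb_eq := h.kb_eq
  nofix := h.nofix
  span := h.span

theorem cheb_shrink {cd : CData S X} {Geo : Subgroup G} {fr : G} {q a C : ℕ}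
    (h : cd.Cheb Geo fr q a C) : (cdShrink cd U).Cheb Geo fr q a C := h

theorem geoOk_shrink {Geo : Subgroup G} {fr : G} (h : CData.GeoOk (S := S) Geo fr) :
    CData.GeoOk (S := shrink S U) Geo fr where
  normal := h.normal
  sg_mem := h.sg_mem
  comm := h.comm
  gen := h.gen
  znd := h.znd

/-- The complement of the places of the prime system is finite, so the good places can be taken to
be exactly these places. -/
theorem ok_shrink_range (h : S.Ok) {cd : CData S X} (hcd : cd.Ok) :
    (shrink S (Set.range cd.pl)).Ok :=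
  ok_shrink h (by rintro _ ⟨P, rfl⟩; exact hcd.pl_good P) hcd.fin_bad

theorem cdOk_shrink_range {cd : CData S X} (h : cd.Ok) :
    (cdShrink cd (Set.range cd.pl)).Ok := cdOk_shrink h fun P => ⟨P, rfl⟩

end cdata

end Pool.Agent.SmNH
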