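import Pool.Agent.Lib.SmN.Cnt.Stmts

/-!
# HEIGHTS over SMITH-U, counting half: the statements of the blocks K+ and J+

Everything for `fr ∈ GN` (geometric monodromy as large as the arithmetic one), so that the
primes which split in the field of the `2`-torsion have all degrees.
-/

set_option autoImplicit false

open Finset

namespace Pool.Agent.SmN

/-- Nice divisors with many large primes of odd degree. -/
structure NiceNH (X : PSys) (c0 δ : ℝ) (n : ℕ) (D : Finset X.Pr) : Prop where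
  nice : NiceN X 1 c0 δ n D
  odd : c0 * Real.log n ≤ Nat.card {P : X.Pr // P ∈ D ∧ N0 n ≤ X.deg P ∧ Odd (X.deg P)}

/-- **Block K+**. -/
def KHThm (X : PSys) (c0 : ℝ) : Prop :=
  ∀ ε δ : ℝ, 0 < ε → 0 < δ → ∃ n₀, ∀ n ≥ n₀,
    (Nat.card {D : Finset X.Pr // X.degS D = n ∧ ¬ NiceNH X c0 δ n D} : ℝ) ≤ ε * X.nDD n

/-- A grid with many odd degrees. -/
structure GrNH (X : PSys) (c0 δ : ℝ) (n : ℕ) (Ds : Finset X.Pr) (T : Finset ℕ) : Prop where
  gr : GrN X 1 c0 δ n Ds T
  odd : c0 * Real.log n ≤ (T.filter fun t => Odd t).card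

section

variable {G V V1 Pl : Type} [Group G] [AddCommGroup V] [DistribMulAction G V]
  [AddCommGroup V1] [Module (ZMod 2) V1]

namespace CData

variable {S : Sys G V V1 Pl} {X : PSys} (cd : CData S X)

variable {J : Type} [Fintype J]

/-- The code `w` satisfies the inhomogeneous condition given by the code `c` at the prime `p j`:
the restriction of `w` is in `W + (0, deg • c (sg))`. -/
def InhN (p : J → cd.Mk) (w c : cd.CodeN J) (j : J) : Prop :=
  S.loc (cd.pl (p j).1) (cd.homN p w) -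
      (0, (X.deg (p j).1 : ZMod 2) • cd.homN p c (S.sg (cd.pl (p j).1))) ∈
    S.Wl (cd.chiN p) (cd.pl (p j).1)

/-- Typical vectors in the strong sense: also a solution `w` of the inhomogeneous system given by
`c 0` is generic, jointly with the `c i`. -/
structure TypHN (p : J → cd.Mk) (R : ℕ) (ρ : ℝ) (N0 : ℕ) : Prop where
  typ : cd.TypN p R ρ N0
  genericH : ∀ (r : ℕ) (c : Fin (r + 1) → cd.CodeN J) (w : cd.CodeN J),
    (∀ i, c i ∈ cd.SelpN p) → cd.IndepN c → cd.ValidN p w → (∀ j, cd.InhN p w (c 0) j) →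
    ∀ (v : Fin (r + 1) → V1) (v' : V1),
      ρ * Nat.card J ≤ Nat.card {j : J // N0 ≤ X.deg (p j).1 ∧ cd.Split (p j) ∧
        (∀ i, (c i).2 j = v i) ∧ w.2 j = v'}

/-- **Block J+**. -/
def JHThm (c0 : ℝ) (r0 : {g : G // g ∈ cd.R}) : Prop :=
  ∀ ε : ℝ, 0 < ε → ∃ (R : ℕ) (ρ δ : ℝ), 0 < ρ ∧ 0 < δ ∧ ∃ n₀, ∀ n ≥ n₀,
    ∀ (Ds : Finset X.Pr) (T : Finset ℕ), GrNH X c0 δ n Ds T →
      (Nat.card {x : cd.MPts T // ¬ cd.TypHN (cd.vec r0 Ds x) R ρ (N0 n)} : ℝ) ≤
        ε * Nat.card (cd.MPts T)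

end CData

end

end Pool.Agent.SmN
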