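import Pool.Agent.Lib.SmNH.Defs
import Pool.Agent.Lib.SmNH.StmtsJ

/-!
# HEIGHTS over SMITH-U: the interface between the blocks I, G and the counting block L

`p : J → Mk` is the vector of the marked primes of `D`. `NAH`, `NTH` are the two sums of signs of the
recursion; `TypEqH` the equivalence relation whose classes carry all the data of level `≤ j`;
`GridThmA`, `GridThmT` the two grid theorems; `HFacts` the facts on one vector.
-/

set_option autoImplicit false

open Finset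

namespace Pool.Agent.SmNH

open Pool.Agent.SmN

variable {G V V1 Pl M : Type} [Group G] [AddCommGroup V] [DistribMulAction G V]
  [AddCommGroup V1] [Module (ZMod 2) V1] [AddCommGroup M] [DistribMulAction G M]
  {S : Sys G V V1 Pl} {X : PSys}

section defs

variable (cd : CData S X) (H : HData V M Pl) {J : Type} [Fintype J] (p : J → cd.Mk)

/-- `y` is a rigid Selmer element of level `i` above the (valid) code `a`:
`2 ^ (i - 1) y.1 = a`. -/
structure AbvH (i : ℕ) (a : cd.CodeN J) (y : (G → V) × (Pl → V)) : Prop where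
  pr : IsPr S (cd.chiN p) i y
  top : ∀ s, (2 : ℕ) ^ (i - 1) • y.1 s = S.iota (cd.homN p a s)
  val : cd.ValidN p a

/-- The flag: `LH i` is the set of the codes of level `i`. -/
abbrev LH (i : ℕ) : Set (cd.CodeN J) := cd.LflN (cd.FN p) (cd.LamN p) i

/-- The sum of the signs of the pairing with `b` over the elements of level `j` above `a` with
`q j y = 0`. -/
noncomputable def NAH (j : ℕ) (a b : cd.CodeN J) : ℝ :=
  ∑ᶠ y : {y : (G → V) × (Pl → V) // AbvH cd p j a y ∧ q S H (cd.chiN p) j y = 0},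
    (-1 : ℝ) ^ (CTr S (cd.chiN p) y.1 (cd.homN p b)).val

open Classical in
/-- The sum of the signs of `q (j + 1) y` over the elements `y` of level `j + 1` above `a` with
`q j (2 y) = 0`. -/
noncomputable def NTH (j : ℕ) (a : cd.CodeN J) : ℝ :=
  ∑ᶠ y : {y : (G → V) × (Pl → V) // AbvH cd p (j + 1) a y ∧
      q S H (cd.chiN p) j ((2 : ℕ) • y) = 0},
    if q S H (cd.chiN p) (j + 1) y.1 = 0 then (1 : ℝ) else -1

end defs

section count

variable (S : Sys G V V1 Pl) (H : HData V M Pl) (chi : G → ZMod 2) (j : ℕ)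

/-- The elements counted by the recursion: level `j`, `2 ^ (j - 1) y.1` is not a coboundary,
`q j y = 0`. -/
structure IsZ (y : (G → V) × (Pl → V)) : Prop where
  pr : IsPr S chi j y
  top : ¬ ∃ z : V, (2 : ℕ) ^ 2 • z = 0 ∧ ∀ s, (2 : ℕ) ^ (j - 1) • y.1 s = dl chi z s
  q0 : q S H chi j y = 0

/-- The number `S_j` of the recursion. -/
noncomputable def nH : ℕ := Nat.card {y : (G → V) × (Pl → V) // IsZ S H chi j y}

end count

section type

variable (cd : CData S X) (H : HData V M Pl) {J : Type} [Fintype J]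

/-- The additive correspondence `Th` identifies the rigid Selmer elements of level `≤ j` of `p` and
of `p'` with everything they carry; the pairing is only preserved up to level `jp`. -/
structure IsoH (j jp : ℕ) (p p' : J → cd.Mk)
    (Th : (G → V) × (Pl → V) → (G → V) × (Pl → V) → Prop) : Prop where
  lev : ∀ y y', Th y y' → ∀ i ≤ j, (IsPr S (cd.chiN p) i y ↔ IsPr S (cd.chiN p') i y')
  left : ∀ y, IsPr S (cd.chiN p) j y → ∃ y', Th y y'
  right : ∀ y', IsPr S (cd.chiN p') j y' → ∃ y, Th y y'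
  add : ∀ y1 y1' y2 y2', Th y1 y1' → Th y2 y2' → Th (y1 + y2) (y1' + y2')
  tor : ∀ z : V, (2 : ℕ) ^ j • z = 0 → Th (tor S (cd.chiN p) z) (tor S (cd.chiN p') z)
  loc : ∀ y, IsPr S (cd.chiN p) j y → y.1 = 0 → Th y y
  top : ∀ y y', Th y y' → ∀ i, 1 ≤ i → i ≤ j → ∀ a, (AbvH cd p i a y ↔ AbvH cd p' i a y')
  pair : ∀ y y', Th y y' → IsPr S (cd.chiN p) jp y → ∀ b ∈ cd.SelpN p,
    CTr S (cd.chiN p') y' (cd.homN p' b) = CTr S (cd.chiN p) y (cd.homN p b)
  qq : ∀ y y', Th y y' → IsPr S (cd.chiN p) j y →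
    q S H (cd.chiN p') j y' = q S H (cd.chiN p) j y

/-- Same symbols between the directions and same data of level `≤ j` (pairing up to level `jp`);
used for vectors in one big block only. Symmetric by definition. -/
def TypEqH {m : ℕ} (dir : Dir m ↪ J) (j jp : ℕ) (p p' : J → cd.Mk) : Prop :=
  cd.DirEq dir p p' ∧ (∃ Th, IsoH cd H j jp p p' Th) ∧ ∃ Th, IsoH cd H j jp p' p Th

end type

/-- A basis of `F` modulo the coboundaries, adapted to the flag, with `c l1 = a`. -/
structure BasT (cd : CData S X) {J : Type} (F : Set (cd.CodeN J)) (L : ℕ → Set (cd.CodeN J))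
    (m : ℕ) (a : cd.CodeN J) where
  r : ℕ
  c : Fin r → cd.CodeN J
  l1 : Fin r
  c_l1 : c l1 = a
  mem : ∀ l, c l ∈ F
  span : ∀ x ∈ F, ∃ (α : Fin r → ZMod 2) (z : V1), x = cd.kapN J z + ∑ l, α l • c l
  indep : ∀ (α : Fin r → ZMod 2) (z : V1), ∑ l, α l • c l = cd.kapN J z → α = 0
  adapted : ∀ i, 1 ≤ i → i ≤ m → ∀ x ∈ L i, ∃ (α : Fin r → ZMod 2) (z : V1),
    x = cd.kapN J z + ∑ l, α l • c l ∧ ∀ l, α l ≠ 0 → c l ∈ L i

/-- Directions for Theorem T: the code `a` alone at the direction `ia`, the code `w` alone at the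
direction `ib`. -/
structure SuppT (cd : CData S X) {J : Type} (F : Set (cd.CodeN J)) (L : ℕ → Set (cd.CodeN J))
    (m : ℕ) (a w : cd.CodeN J) (dir : Dir m ↪ J) extends BasT cd F L m a where
  e : V1
  e' : V1
  supp0 : ∀ l (i : Fin m), (c l).2 (dir (some (some i))) = 0
  suppa : ∀ l, (c l).2 (dir (some none)) = if l = l1 then e else 0
  suppb : ∀ l, (c l).2 (dir none) = 0
  w0 : ∀ i : Fin m, w.2 (dir (some (some i))) = 0
  wa : w.2 (dir (some none)) = 0
  wb : w.2 (dir none) = e'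
  pair : S.e e e' = 1

section grid

variable (cd : CData S X) (H : HData V M Pl)

open Classical in
/-- **Theorem A** at level `j`, as a statement. -/
def GridThmA (Q j : ℕ) : Prop :=
  ∀ (R : ℕ) (η : ℝ), 0 < η → ∃ n₀ : ℕ, ∀ (J : Type) (_ : Fintype J) (p : J → cd.Mk)
    (a b : cd.CodeN J) (dir : Dir j ↪ J), cd.DirOk p dir → n₀ ≤ cd.degN p →
    Nat.card (cd.SelpN p) ≤ 2 ^ R →
    a ∈ LH cd p j →
    Nonempty (cd.SuppN (cd.SelpN p) (LH cd p) j a b dir) →
    (∀ i, (Q : ℝ) ^ (9 * X.deg (p (dir i)).1 / 10) ≤ Nat.card (cd.XB p dir i)) →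
    |∑ᶠ x : (i : Dir j) → cd.XB p dir i,
        if TypEqH cd H dir j (j - 1) p (cd.replN p dir fun i => (x i).1) then
          NAH cd H (cd.replN p dir fun i => (x i).1) j a b else 0| ≤
      η * ∏ i, (Nat.card (cd.XB p dir i) : ℝ)

open Classical in
/-- **Theorem T** at level `j`, as a statement. -/
def GridThmT (Q j : ℕ) : Prop :=
  ∀ (R : ℕ) (η : ℝ), 0 < η → ∃ n₀ : ℕ, ∀ (J : Type) (_ : Fintype J) (p : J → cd.Mk)
    (a w : cd.CodeN J) (dir : Dir j ↪ J), cd.DirOk p dir → n₀ ≤ cd.degN p →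
    Nat.card (cd.SelpN p) ≤ 2 ^ R →
    cd.ValidN p w → (∀ l, cd.InhN p w a l) →
    a ∈ LH cd p (j + 1) →
    Nonempty (SuppT cd (cd.SelpN p) (LH cd p) j a w dir) →
    (∀ i, (Q : ℝ) ^ (9 * X.deg (p (dir i)).1 / 10) ≤ Nat.card (cd.XB p dir i)) →
    |∑ᶠ x : (i : Dir j) → cd.XB p dir i,
        if TypEqH cd H dir j j p (cd.replN p dir fun i => (x i).1) then
          NTH cd H (cd.replN p dir fun i => (x i).1) j a else 0| ≤
      η * ∏ i, (Nat.card (cd.XB p dir i) : ℝ)

/-- Boundedly many classes in a big block: the points are labelled by `Fin C`, and points with the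
same label are equivalent. -/
def FewTyp (j jp : ℕ) : Prop :=
  ∀ R : ℕ, ∃ C : ℕ, ∀ (J : Type) (_ : Fintype J) (p : J → cd.Mk) (dir : Dir j ↪ J),
    cd.DirOk p dir → Nat.card (cd.SelpN p) ≤ 2 ^ R →
    ∃ f : ((i : Dir j) → cd.XB p dir i) → Fin C, ∀ x x', f x = f x' →
      TypEqH cd H dir j jp (cd.replN p dir fun i => (x i).1) (cd.replN p dir fun i => (x' i).1)

/-- The relaxed codes, the codes of the Selmer group and the solutions `w` of the inhomogeneous
systems are constant along the points of a big block with the same direction symbols. -/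
def FrameRThm : Prop :=
  ∀ (J : Type) (_ : Fintype J) (m : ℕ) (p : J → cd.Mk) (dir : Dir m ↪ J), cd.DirOk p dir →
    ∀ x y : (i : Dir m) → cd.XB p dir i,
      cd.DirEq dir (cd.replN p dir fun i => (x i).1) (cd.replN p dir fun i => (y i).1) →
      cd.SelpN (cd.replN p dir fun i => (x i).1) = cd.SelpN (cd.replN p dir fun i => (y i).1) ∧
      cd.FN (cd.replN p dir fun i => (x i).1) = cd.FN (cd.replN p dir fun i => (y i).1) ∧
      ∀ a ∈ cd.SelpN (cd.replN p dir fun i => (x i).1), ∀ w : cd.CodeN J,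
        (cd.ValidN (cd.replN p dir fun i => (x i).1) w ∧
          ∀ l, cd.InhN (cd.replN p dir fun i => (x i).1) w a l) ↔
        (cd.ValidN (cd.replN p dir fun i => (y i).1) w ∧
          ∀ l, cd.InhN (cd.replN p dir fun i => (y i).1) w a l)

end grid

open Classical in
/-- The facts on one vector `p` used by the counting block. -/
structure HFacts (cd : CData S X) (H : HData V M Pl) {J : Type} [Fintype J] (p : J → cd.Mk) :
    Prop where
  fin : ∀ i, Finite {y : (G → V) × (Pl → V) // IsPr S (cd.chiN p) i y}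
  /-- the criterion -/
  succ : ∀ i, 1 ≤ i → ∀ a : cd.CodeN J, a ∈ LH cd p (i + 1) ↔
    ∃ y, AbvH cd p i a y ∧ ∀ b ∈ cd.SelpN p, CTr S (cd.chiN p) y (cd.homN p b) = 0
  /-- the recursion -/
  recur : ∀ i, 1 ≤ i → (nH S H (cd.chiN p) (i + 1) : ℝ) ≤
    Nat.card V1 * nH S H (cd.chiN p) i +
    1 / 2 * (∑ᶠ ab : cd.CodeN J × cd.CodeN J,
      if ab.1 ∈ LH cd p i ∧ ab.2 ∈ cd.SelpN p ∧ cd.Indep2N ab.1 ab.2 then
        NAH cd H p i ab.1 ab.2 else 0) +
    1 / 2 * (∑ᶠ a : cd.CodeN J,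
      if a ∈ LH cd p (i + 1) ∧ (∀ z, a ≠ cd.kapN J z) then NTH cd H p i a else 0)
  /-- `NTH = 0` if there is no code `w` -/
  zero : ∀ i, 1 ≤ i → ∀ a ∈ LH cd p (i + 1),
    (¬ ∃ w : cd.CodeN J, cd.ValidN p w ∧ ∀ l, cd.InhN p w a l) → NTH cd H p i a = 0
  /-- adapted bases of the relaxed group -/
  basisA : ∀ j, 1 ≤ j → ∀ a ∈ LH cd p j, ∀ b ∈ cd.SelpN p, cd.Indep2N a b →
    Nonempty (cd.BasN (cd.SelpN p) (LH cd p) j a b)
  basisT : ∀ j, 1 ≤ j → ∀ a ∈ LH cd p (j + 1), (∀ z, a ≠ cd.kapN J z) →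
    Nonempty (BasT cd (cd.SelpN p) (LH cd p) j a)
  /-- many multiples: one element of level `j` gives `2 ^ (j - 1) (#V1) ^ j` of them -/
  many : ∀ j, 1 ≤ j → (∃ y, IsZ S H (cd.chiN p) j y) →
    2 ^ (j - 1) * Nat.card V1 ^ j ≤ nH S H (cd.chiN p) j

/-- The number of the rigid elements is bounded by the number of the Selmer cocycles (the number of
the local points at the bad places is bounded). -/
def LocBound (cd : CData S X) : Prop :=
  ∃ C1 : ℕ, ∀ (J : Type) (_ : Fintype J) (p : J → cd.Mk), cd.PVecN p → ∀ i,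
    Nat.card {y : (G → V) × (Pl → V) // IsPr S (cd.chiN p) i y} ≤ C1 * cd.nZN p i

/-- **Conclusion of the counting block**: for almost all `D` there is no element of level `s` with
`q = 0` which is not a multiple of `2` up to coboundaries. -/
def LHThm (cd : CData S X) (H : HData V M Pl) : Prop :=
  ∀ ε : ℝ, 0 < ε → ∃ s₁ : ℕ, ∀ s ≥ s₁, ∃ n₀ : ℕ, ∀ n ≥ n₀,
    (Nat.card {D : Finset X.Pr // X.degS D = n ∧ ∃ y, IsZ S H (cd.chiD D) s y} : ℝ) ≤
      ε * X.nDD n

end Pool.Agent.SmNH
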