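import Pool.Agent.Lib.SmN.Asm.Abs
import Pool.Agent.Lib.SmNH.L.Sum
import Pool.Agent.Lib.SmNH.Shrink
import Pool.Agent.Lib.SmNH.HF.Fin
import Pool.Agent.Lib.SmNH.HF.Many
import Pool.Agent.Lib.SmNH.HF.Bas
import Pool.Agent.Lib.SmNH.HF.Of
import Pool.Agent.Lib.SmNH.I.FrR
import Pool.Agent.Lib.SmNH.I.Few17
import Pool.Agent.Lib.SmNH.I.Grid
import Pool.Agent.Lib.SmNH.K.KHThm
import Pool.Agent.Lib.SmNH.J.Main

/-!
# HEIGHTS over SMITH-U: assembly

`AHOk`: the additional input of the arithmetic half. `main_ofH`: for all base characters `chi0`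
unramified outside `T` the counting data satisfy `LHThm`.
-/

set_option autoImplicit false

open Finset

namespace Pool.Agent.SmNH

open Pool.Agent.SmN Pool.Agent.SmN.Ch

variable {G V V1 Pl M : Type} [Group G] [AddCommGroup V] [DistribMulAction G V]
  [AddCommGroup V1] [Module (ZMod 2) V1] [AddCommGroup M] [DistribMulAction G M]

/-- The additional input of the arithmetic half. -/
structure AHOk (S : Sys G V V1 Pl) (H : HData V M Pl) (T : Set Pl) (deg : Pl → ℕ) : Prop where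
  hok : HOk S H
  bad : BadOk S
  good : S.good = Tᶜ
  deg : ∀ v, v ∉ T → H.deg v = deg v

/-- The facts about the counting data which all blocks may use. -/
structure CdH {S : Sys G V V1 Pl} {X : PSys} (cd : CData S X) (H : HData V M Pl) : Prop where
  ok : cd.Ok
  good : S.good = Set.range cd.pl
  deg : ∀ P, H.deg (cd.pl P) = X.deg P

theorem main_ofH {S : Sys G V V1 Pl} {H : HData V M Pl} {T : Set Pl} {deg : Pl → ℕ}
    {Geo : Subgroup G} {fr : G} {q a C : ℕ} [Nontrivial V1] (h : AOk S T deg q Geo fr a C 1)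
    (hA : AHOk S H T deg)
    (hHF : ∀ cd : CData S (XX T deg), CdH cd H → ∀ (J : Type) (_ : Fintype J) (_ : Nonempty J)
      (p : J → cd.Mk), cd.PVecN p → HFacts cd H p)
    (hfr : ∀ cd : CData S (XX T deg), CdH cd H → FrameRThm cd)
    (hfA : ∀ cd : CData S (XX T deg), CdH cd H → ∀ j, 1 ≤ j → FewTyp cd H j (j - 1))
    (hfT : ∀ cd : CData S (XX T deg), CdH cd H → ∀ j, 1 ≤ j → FewTyp cd H j j)
    (hGA : ∀ cd : CData S (XX T deg), CdH cd H → cd.Cheb Geo fr q a C → ∀ j, 1 ≤ j →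
      GridThmA cd H q j)
    (hGT : ∀ cd : CData S (XX T deg), CdH cd H → cd.Cheb Geo fr q a C → ∀ j, 1 ≤ j →
      GridThmT cd H q j)
    (c0 : ℝ) (hc0 : 0 < c0) (hK : KHThm (XX T deg) c0)
    (hJ : ∀ cd : CData S (XX T deg), cd.Ok → cd.Cheb Geo fr q a C →
      ∀ r0, cd.JHThm c0 r0) :
    ∃ cd : CData S (XX T deg), cd.pl = Subtype.val ∧ ∀ chi0, XT S T chi0 →
      CdH ({ cd with chi0 := chi0 } : CData S (XX T deg)) H ∧
      LHThm ({ cd with chi0 := chi0 } : CData S (XX T deg)) H := by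
  have := h.ok.fin1
  obtain ⟨cd, h1, h2⟩ := exists_cdata' h.ok h.fi h.up h.lagV h.lagF h.nofix h.span deg
  refine ⟨cd, h1, fun chi0 hc => ?_⟩
  have hc' := h2 chi0 hc
  have hcd : CdH ({ cd with chi0 := chi0 } : CData S (XX T deg)) H := by
    refine ⟨hc', ?_, fun P => ?_⟩
    · change S.good = Set.range cd.pl
      rw [h1, hA.good]
      exact (Subtype.range_coe (s := Tᶜ)).symm
    · change H.deg (cd.pl P) = (XX T deg).deg P
      rw [h1]
      exact hA.deg P.1 P.2
  have hC : ({ cd with chi0 := chi0 } : CData S (XX T deg)).Cheb Geo fr q a C :=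
    CData.cheb_of h1 h.cheb
  exact ⟨hcd, lHThm _ H h.xok h.ok hc' (fun J _ _ p hp => CData.lfactsN h.ok hc' hp)
    (hHF _ hcd) (hfr _ hcd) (locBound h.ok hc') (hfA _ hcd) (hfT _ hcd) (hGA _ hcd hC)
    (hGT _ hcd hC) c0 hc0 hK (hJ _ hc' hC)⟩

/-- **The main theorem on the heights**, for the counting data: all the blocks are plugged in. -/
theorem main_H {S : Sys G V V1 Pl} {H : HData V M Pl} {T : Set Pl} {deg : Pl → ℕ}
    {Geo : Subgroup G} {fr : G} {q a C : ℕ} [Nontrivial V1] (h : AOk S T deg q Geo fr a C 1)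
    (hA : AHOk S H T deg) :
    ∃ cd : CData S (XX T deg), cd.pl = Subtype.val ∧ ∀ chi0, XT S T chi0 →
      CdH ({ cd with chi0 := chi0 } : CData S (XX T deg)) H ∧
      LHThm ({ cd with chi0 := chi0 } : CData S (XX T deg)) H := by
  have hNf : ∀ N ∈ S.NN, N.index ≠ 0 := fun N hN => (h.fi N hN).index_ne_zero
  have hfr : fr ∈ S.GN := by
    have := h.m0_mem
    rwa [pow_one] at this
  exact main_ofH h hA
    (fun cd hcd J _ _ p hp => hfacts_of h.ok hA.bad hA.hok hcd.ok hcd.good hcd.deg hp)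
    (fun cd hcd => frameRThm h.ok hcd.ok)
    (fun cd hcd j _ => fewTyp h.ok hA.hok hcd.ok (Nat.sub_le _ _))
    (fun cd hcd j _ => fewTyp h.ok hA.hok hcd.ok le_rfl)
    (fun cd hcd hC j hj => gridThmA h.ok hA.bad hA.hok hcd.ok hcd.good h.xok hNf h.geo hC j hj)
    (fun cd hcd hC j hj => gridThmT h.ok hA.bad hA.hok hcd.ok hcd.good hcd.deg h.xok hNf h.geo
      hC j hj)
    (1 / 8) (by norm_num) (PSys.khthm h.xok (1 / 8) le_rfl)
    (fun _ hc hC r0 => J.jHThm h.ok h.xok hc h.geo hC hfr (1 / 8) (by norm_num) r0)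

end Pool.Agent.SmNH
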